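import Pool.Agent.W582.WS.FDT
import Pool.Agent.W95.WS.SQ
import Pool.Agent.W950.WS.IB
import Pool.Agent.W870.WS.DF
import Pool.Agent.W784.WS.R1
import Pool.Agent.W706.WS.R2
import Pool.Agent.W363.WS.AV
import Pool.Agent.W563.WS.EE
import Pool.Agent.W310.WS.JL
import Pool.Agent.W203.WT.POI
import Pool.Agent.W203.WT.L2R
import Pool.Agent.W203.WT.NEAR
import Pool.Agent.W203.WT.E2
import Pool.Agent.W203.WT.MT
import Pool.Agent.W203.WT.BC2
import Pool.Agent.W203.WT.FL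
import Pool.Agent.W203.WT.FLALL

/-!
# Integer parts of shifted powers: linearly many summands for almost every shift
-/

set_option autoImplicit false

open MeasureTheory

namespace Pool.Agent.Results.MP_570bef_nt.IntegerPartsOfShiftedPowers

/-- For `k ≥ 2`, `s ≥ 2 k + 1` and almost every `θ ∈ ℝ ^ s`, every large integer `N` is a sum
`∑ ⌊(x_i + θ_i) ^ k⌋` with integers `x_i` (as large as we like). -/
theorem result (k s : ℕ) (hk : 2 ≤ k) (hs : 2 * k < s) :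
    ∀ᵐ θ : Fin s → ℝ, ∀ L : ℤ, ∃ N₀ : ℤ, ∀ N : ℤ, N₀ ≤ N → ∃ x : Fin s → ℤ, (∀ i, L ≤ x i) ∧
      ∑ i, ⌊((x i : ℝ) + θ i) ^ k⌋ = N := by
  have hfdt : Pool.Agent.W203.WS.S_FDT := Pool.Agent.W582.WS.t_FDT
  have hsq : Pool.Agent.W203.WS.S_SQ := Pool.Agent.W95.WS.t_SQ hfdt
  have hib : Pool.Agent.W203.WS.S_IB := Pool.Agent.W950.WS.t_IB hfdt
  have hdf : Pool.Agent.W203.WS.S_DF := Pool.Agent.W870.WS.t_DF
  have hr1 : Pool.Agent.W203.WS.S_R1 := Pool.Agent.W784.WS.t_R1 hib hdf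
  have hr2 : Pool.Agent.W203.WS.S_R2 := Pool.Agent.W706.WS.t_R2 hsq
  have hee : Pool.Agent.W203.WS.S_EE := Pool.Agent.W563.WS.t_EE hr1 hr2 Pool.Agent.W363.WS.t_AV
  have hpoi : Pool.Agent.W203.WS.S_POI := Pool.Agent.W145.WT.t_POI
  have hl2 : Pool.Agent.W203.WS.S_L2R := Pool.Agent.W918.WT.t_L2R hpoi hsq
  have he2 : Pool.Agent.W203.WS.S_E2 := Pool.Agent.W490.WT.t_E2 hl2 hsq
  have hmt : Pool.Agent.W203.WS.S_MT := Pool.Agent.W308.WT.t_MT hib Pool.Agent.W310.WS.t_JL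
  have hbc : Pool.Agent.W203.WS.S_BC2 := Pool.Agent.W474.WT.t_BC2 hee he2
  have hnear : Pool.Agent.W203.WS.S_NEAR := Pool.Agent.W700.WT.NEAR.t_NEAR
  have hfl : Pool.Agent.W203.WS.S_FL := Pool.Agent.W576.WT.t_FL hbc hmt hnear
  exact Pool.Agent.W190.WT.t_FLALL hfl k s hk hs

end Pool.Agent.Results.MP_570bef_nt.IntegerPartsOfShiftedPowers
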